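import Mathlib
import Pool.Agent.VRing23.Regular

/-!
# Prime right V-rings whose proper primitive factor rings satisfy a chain condition

Let `R` be a prime right V-ring.  Suppose that every right primitive factor ring `U` of `R` by a
nonzero ideal has a nonzero Noetherian right ideal (for instance a minimal right ideal), or the
ascending chain condition on right annihilators, or, more generally, a nonzero two-sided ideal
`H` such that for every `g ∈ H` the ring `U` has the ascending chain condition on right
annihilators of subsets of `U g`.  Then `R` is right primitive.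

Sketch.  Assume that `R` is not right primitive.  For every `g ≠ 0` there are `r, y` with
`r g ≠ 0`, `r g y = 0`, `g y ≠ 0`: otherwise every nonzero ideal `I` contains some `x = c r g ≠ 0`,
`x = x t` with `t ∈ I`, so `g = g t ∈ I`, and a maximal right ideal without `g` contains no
nonzero ideal.  Iterating, every `g ≠ 0` carries a ladder: `x n ∈ R g`, `x n * y n ≠ 0`,
`x m * y n = 0` for `n < m`.  Close `{1}` under products `g r g' ≠ 0` and under `g ↦ x n * y n`;
this gives a countable set of nonzero elements.  An ideal `A` maximal among the ideals avoiding it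
is prime, `R / A` has a countable coinitial family of ideals, so it is right primitive, and every
nonzero ideal of `R / A` contains an element with a ladder in `R / A`.
-/

namespace Pool.Agent.Results.MP_2175e6_al.ChainConditionFactors

universe u

/-- Some simple right module is faithful. -/
def RightPrimitive (U : Type u) [Ring U] : Prop :=
  ∃ (M : Type u) (_ : AddCommGroup M) (_ : Module Uᵐᵒᵖ M),
    IsSimpleModule Uᵐᵒᵖ M ∧ ∀ r : Uᵐᵒᵖ, (∀ m : M, r • m = 0) → r = 0

/-- The right annihilator of a subset. -/
def rightAnn {U : Type u} [Ring U] (S : Set U) : Set U := {z | ∀ x ∈ S, x * z = 0}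

theorem result (R : Type u) [Ring R] [Nontrivial R]
    (hprime : ∀ a b : R, (∀ r : R, a * r * b = 0) → a = 0 ∨ b = 0)
    (hV : ∀ (M : Type u) [AddCommGroup M] [Module Rᵐᵒᵖ M],
      IsSimpleModule Rᵐᵒᵖ M → Module.Injective Rᵐᵒᵖ M)
    (hfac : ∀ (U : Type u) [Ring U] (f : R →+* U), Function.Surjective f →
      ¬ Function.Injective f → RightPrimitive U →
        (∃ N : Submodule Uᵐᵒᵖ U, N ≠ ⊥ ∧ IsNoetherian Uᵐᵒᵖ N) ∨
        (¬ ∃ S : ℕ → Set U, ∀ n, rightAnn (S n) ⊂ rightAnn (S (n + 1))) ∨
        (∃ H : TwoSidedIdeal U, H ≠ ⊥ ∧ ∀ g ∈ H,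
          ¬ ∃ S : ℕ → Set U, (∀ n, ∀ x ∈ S n, ∃ r, x = r * g) ∧
            ∀ n, rightAnn (S n) ⊂ rightAnn (S (n + 1)))) :
    RightPrimitive R := by
  refine VRing23.primitive_of_goodFactors R hprime
    (VRing.RightV.weaklyRegular hV) (VRing23.RightV.jZero hV) ?_
  intro U _ f hf hfi hU
  rcases hfac U f hf hfi hU with h | h | h
  · exact VRing23.goodFactor_of_noetherian h
  · have : Nontrivial U := VRing23.RightPrimitive.nontrivial hU
    exact VRing23.goodFactor_of_acc h
  · exact VRing23.goodFactor_of_local h

end Pool.Agent.Results.MP_2175e6_al.ChainConditionFactors
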