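import Mathlib
import Pool.Agent.VRing23.Regular

/-!
# Prime von Neumann regular rings whose proper primitive factor rings are simple

Let `R` be a prime von Neumann regular ring (for instance a prime regular right V-ring).  Suppose
that every right primitive factor ring `U` of `R` by a nonzero ideal is simple, or has a nonzero
Noetherian right ideal (for instance a minimal right ideal), or satisfies one of the weaker chain
conditions below.  Then `R` is right primitive.  There is no countability assumption.

Sketch.  By induction on a cardinal `κ` we show that a prime factor ring `T` with a coinitial set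
`X` of cardinality `κ` (every nonzero ideal meets `X` in a nonzero element) is right primitive.
For `κ ≤ ℵ₀` this is the usual sequence argument.  For `κ > ℵ₀` one chooses by transfinite
recursion elements `f x ∈ 1 + (x)`, `x ∈ X`, such that the right ideal generated by the `f x`
chosen so far is proper; a maximal right ideal containing all of them contains no nonzero ideal.
Recursion step: let `Y` be the set of the elements chosen so far, `x ∈ X`.  For every finite
`s ⊆ Y` there is `e s ≠ 0` with `e s * s = 0`, as `T` is regular.  If `T` is not right primitive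
then every nonzero element has a ladder; close the set of all `e s` and `x` under products and
ladders, and let `A` be an ideal maximal among those avoiding this set `G`.  Then `T / A` is prime
with the coinitial set `G` of cardinality `< κ`, so it is right primitive, and it has no ideal
without ladders, so it is simple.  Hence `1 = t + f` with `t ∈ (x)`, `f ∈ A`, and
`1 ∈ Y T + f T` would imply `e s ∈ A` for some `s`.
-/

namespace Pool.Agent.Results.MP_2175e6_al.RegularSimpleFactors

universe u

/-- Some simple right module is faithful. -/
def RightPrimitive (U : Type u) [Ring U] : Prop :=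
  ∃ (M : Type u) (_ : AddCommGroup M) (_ : Module Uᵐᵒᵖ M),
    IsSimpleModule Uᵐᵒᵖ M ∧ ∀ r : Uᵐᵒᵖ, (∀ m : M, r • m = 0) → r = 0

/-- The right annihilator of a subset. -/
def rightAnn {U : Type u} [Ring U] (S : Set U) : Set U := {z | ∀ x ∈ S, x * z = 0}

theorem result (R : Type u) [Ring R] [Nontrivial R]
    (hprime : ∀ a b : R, (∀ r : R, a * r * b = 0) → a = 0 ∨ b = 0)
    (hreg : ∀ a : R, ∃ z, a * z * a = a)
    (hfac : ∀ (U : Type u) [Ring U] (f : R →+* U), Function.Surjective f →
      ¬ Function.Injective f → RightPrimitive U →
        IsSimpleRing U ∨
        (∃ N : Submodule Uᵐᵒᵖ U, N ≠ ⊥ ∧ IsNoetherian Uᵐᵒᵖ N) ∨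
        (¬ ∃ S : ℕ → Set U, ∀ n, rightAnn (S n) ⊂ rightAnn (S (n + 1))) ∨
        (∃ H : TwoSidedIdeal U, H ≠ ⊥ ∧ ∀ g ∈ H,
          ¬ ∃ S : ℕ → Set U, (∀ n, ∀ x ∈ S n, ∃ r, x = r * g) ∧
            ∀ n, rightAnn (S n) ⊂ rightAnn (S (n + 1)))) :
    RightPrimitive R := by
  refine VRing23.primitive_of_regular R hprime hreg ?_
  intro U _ f hf hfi hU
  rcases hfac U f hf hfi hU with h | h | h | h
  · exact Or.inl h
  · exact Or.inr (VRing23.goodFactor_of_noetherian h)
  · have : Nontrivial U := VRing23.RightPrimitive.nontrivial hU
    exact Or.inr (VRing23.goodFactor_of_acc h)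
  · exact Or.inr (VRing23.goodFactor_of_local h)

end Pool.Agent.Results.MP_2175e6_al.RegularSimpleFactors
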